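import Pool.Agent.Run7.h260.TW.Prd

/-!
# Abundance for varieties with canonical singularities dominated by towers over products with a curve

A product tower of dimension `n` with the bound `s` (`ProductTower 3 n K s`) is a sequence of dominant
rational maps of finite degree `V = V_0 ⇢ V_1 ⇢ ... ⇢ V_k` between varieties of dimension `n` over `ℂ`. At
the step `V_i ⇢ V_(i + 1)`, of degree `b_i`, the canonical bundle of `V_i` is positive relative to
`V_(i + 1)` (`Positive`): `V_(i + 1)` is the image of `V_i` in a projective space, and for all varieties
`Y'`, `V_i ⇢ Y' ⇢ V_(i + 1)`, of degree `> 1` over `V_(i + 1)` there is a section of `K_(V_i) - m H` with a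
nonzero trace on `Y'`, where `s_i ≤ [V_i : Y'] (m + 1)`; for instance cyclic coverings of prime degree
branched along a sufficiently positive divisor. The bounds are `s_0 = s`, `s_(i + 1) = ⌊s_i / b_i⌋`. The
last variety `V_k`, with the bound `s_k`, is

* a product `X_0 × ... × X_(t - 1) × C` (`IsProduct`), where `C` is any smooth projective curve, and each
  `X_i` has a number `g_i > s_k` and is either a curve of gonality at least `g_i` or a variety in
  projective `(M + 1)`-space which is cut out by equations of degree at most `D` and has the regular
  canonical forms `P(x) ω₀` for all forms `P` of degree `m` (for instance a smooth complete intersection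
  of codimension at least two), `m ≥ 7 N + 4`, `(M + 1) N < m + M + 2`, `D + N ≤ m + 2`,
  `g_i ≤ (N + 1) (m + 2 - N)` for some `N` (`Factor`); `t = 0` is allowed; or
* a smooth hypersurface of degree `d` in `ℙ^(n + 1)`, where for some `N` one has `d ≥ 7 N + n + 6`,
  `d > (n + 1) N`, `d > 3 (N + n - 1)` and `s_k < (N + 1) (d - n - N)`; or a variety with a generically
  finite map of any degree to a variety of low degree as above, `s_k < (N + 1) (m + 2 - N)`; or
* any uniruled variety, without condition on `s_k`.

**Theorem.** Let `V` be the first variety of such a tower with the bound `s = 2 r`, and let `W` be a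
variety with a dominant rational map `V ⇢ W` of degree `r`. The map is arbitrary: not a quotient by a
group, not related to the tower, with any ramification. Then these are equivalent: `K_W` is
pseudo-effective; `κ(W) ≥ dim W - 1`; `W` is not uniruled.

So Q1 has a positive answer for the pairs `(X, 0)`, where `X` is a compact Kähler space of any dimension
with canonical singularities and nef `K_X`, bimeromorphic to such a `W`. Then `X` is Moishezon, so it is
projective (Namikawa), the sections of `m K_X` are those of `m K_W`, and `X` is not uniruled, since `K_X`
is nef; hence `κ(X) ≥ dim X - 1`. If `K_X` is big then it is semiample by the base point free theorem.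
Otherwise `ν(X) < dim X`, since `K_X` is nef, so `κ(X) = ν(X) = dim X - 1`, and `K_X` is semiample by
Kawamata's theorem (Kawamata, Fujino for klt pairs).

Proof. If `W` is not of general type then at each step `V_i ⇢ W` factors through `V_(i + 1)`
(`R882.Over.factors_step`), with the degree `[V_(i + 1) : W] = [V_i : W] / b_i`. At the bottom, the theorem
on products (`N162.GQ.mprod_dich`) can be applied, since the degrees `d_i` in it are at most
`[V_k : W]`, `2 [V_k : W] ≤ s_k < g_i`; or the ones on hypersurfaces and on varieties of low degree. The
starting files have the theorem for products themselves, and for towers over uniruled varieties; the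
towers over products are new.
-/

set_option autoImplicit false

open FF Pool.Agent.W602.GT
open Pool.Agent.W619.PQ (IsUniruled)
open Pool.Agent.Run7.h260.TW (ProductTower)

namespace Pool.Agent.Results.MP_9a2ae6_ag.ImagesOfProductTowers

/-- **Abundance for the images of towers over products.** Let `K` be the function field of the first
variety `V` of a tower of dimension `n ≥ 1` with the bound `2 [K : L]`, over a product of varieties of low
degree, curves of large gonality and an arbitrary curve, over a smooth hypersurface or a covering of a
variety of low degree, or over a uniruled variety, where `L ⊆ K` is the function field of `W`. Then `K_W`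
pseudo-effective, `κ(W) ≥ n - 1`, and `W` not uniruled are equivalent. -/
theorem result {n : ℕ} (hn : 1 ≤ n) {K : Type} [Field K] [Algebra ℂ K] [Algebra.EssFiniteType ℂ K]
    (hK : Algebra.trdeg ℂ K = n) (L : Type) [Field L] [Algebra ℂ L] [Algebra L K]
    [IsScalarTower ℂ L K] [FiniteDimensional L K]
    (h : ProductTower 3 n K (2 * Module.finrank L K)) :
    [Psef ℂ L n (fun _ => False), KodGe ℂ L n (fun _ => False) (n - 1),
      ¬ IsUniruled ℂ L n].TFAE :=
  Pool.Agent.Run7.h260.TW.ptower_dich L hn hK le_rfl le_rfl h

end Pool.Agent.Results.MP_9a2ae6_ag.ImagesOfProductTowers
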