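import Pool.Agent.Run7.h528.NR.Final
import Pool.Agent.Run7.h528.NR.Term
import Pool.Agent.Run7.h528.NN.Log
import Pool.Agent.N110.RK.Stat
import Pool.Agent.N110.IM.Img
import Pool.Agent.N110.IM.Defs
import Pool.Agent.N110.NV.Fin
import Pool.Agent.R887.NefP
import Pool.Agent.R887.Exc

/-!
Pairs which are dominated by a minimal variety, or a terminal pair with nef `K + Δ`, with a nilpotent
group of birational self-maps: abundance.
-/

set_option autoImplicit false

open FF Pool.Agent.W602.GT Pool.Agent.Y172 Pool.Agent.R887 Pool.Agent.N110 Run7.h528.NR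
open Run7.h528.NN

/-- Let `X'` be a minimal variety of dimension `n ≥ 1`, with generic point `y'`: a normal projective
variety with terminal singularities and nef canonical divisor; let `G` be any nilpotent group of
birational self-maps of `X'`, given by automorphisms of the function field. More generally, let
`Δ' ≥ 0` be a `ℚ`-divisor such that `(X', Δ')` is terminal, `K_X' + Δ'` is nef, and the elements `g`
of `G` preserve `K_X' + Δ'`: over the prime divisors of `X'` the divisor `g^* (K_X' + Δ')` is at most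
`K_X' + Δ'`. The group of the divisors on `X'` modulo numerical equivalence is finitely generated by
the theorem of Néron and Severi; this is the hypothesis `hN'`. Let `(X, Δ)` be a pair, `Δ ≥ 0`, which
is dominated by `(X', Δ')`: there is a dominant rational map `X' ⇢ X`, generically finite, given by
the homomorphism `π` of the function fields, such that the pull back of `K_X + Δ` is at most
`K_X' + Δ'` over the prime divisors of `X'`. For instance let `X` be the quotient of a minimal variety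
`X'` by any finite group, with the branch divisor `Δ`; then `(X, Δ)` is klt. The map `X' ⇢ X` has
nothing to do with `G`.

Then there is a surjective homomorphism `Φ` from `G` onto `ℤ ^ ρ` with `ρ ≤ n - 1`, whose kernel is the
set of the elements with first dynamical degree at most `1`. If `ρ ≥ 1`, then the numerical dimension
and the Kodaira dimension of `K_X + Δ` are at most `n - 1 - ρ`, and they are equal if the Kodaira
dimension is at least `n - 1 - ρ` (if `(X, Δ)` is klt and `K_X + Δ` is nef, then it is semiample in this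
case, by a theorem of Kawamata which is not formalised here). If `ρ = n - 1 ≥ 1` and `K_X + Δ` is
nef, then it is numerically trivial, whatever the irregularity of `X` is (the hypothesis
`NeronSeveri y`, used only for this, is the theorem of Néron and Severi for `X`). If moreover
`κ (K_X + Δ) ≥ 0` or the irregularity of `X` is zero, then `K_X + Δ` is torsion: `m (K_X + Δ)` has a
section `ω ≠ 0` without zeros for some `m ≥ 1`. -/
theorem Pool.Agent.Results.MP_9a2ae6_ag.NilpotentCoveredMinimal.result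
    {K K' : Type} [Field K] [Algebra ℂ K] [Field K'] [Algebra ℂ K'] {N N' n : ℕ}
    {y : Fin (N + 1) → K} {y' : Fin (N' + 1) → K'} (hy : NormalModel y) (hy' : NormalModel y')
    (hn : Algebra.trdeg ℂ K = n) (hn' : Algebra.trdeg ℂ K' = n) (hn0 : 0 < n)
    (hN' : NeronSeveri y') {Δ' : Place ℂ K' → ℚ} (hΔ' : Effective y' Δ')
    (hT' : TerminalPair y' n Δ') (hnef' : LogNef y' n Δ') (G : Subgroup (K' ≃ₐ[ℂ] K'))
    (hnil : Group.IsNilpotent G) (hP : Δ' = 0 ∨ ∀ g ∈ G, PullLe g y' n Δ')
    {Δ : Place ℂ K → ℚ} (hΔ : Effective y Δ) (π : K →ₐ[ℂ] K')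
    (hπ : IM.ImagePullLe π y n Δ y' Δ') :
    ∃ (ρ : ℕ) (Φ : G →* Multiplicative (Fin ρ → ℤ)), Function.Surjective Φ ∧
      (∀ g : G, Φ g = 1 ↔ dynDegree (g : K' ≃ₐ[ℂ] K') y' n 1 ≤ 1) ∧ ρ < n ∧
      (0 < ρ → NumDimLt y n Δ (n - ρ) ∧ ¬ KappaGe y n Δ (n - ρ) ∧
        (KappaGe y n Δ (n - ρ - 1) → Abundant y n Δ) ∧
        (ρ + 1 = n → NeronSeveri y → LogNef y n Δ → NumTrivial y n Δ) ∧
        (ρ + 1 = n → LogNef y n Δ → KappaGe y n Δ 0 ∨ IrregularityZero y →
          kodairaDim y n Δ = ((0 : ℕ) : WithBot ℕ) ∧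
          (∀ A, Effective y A → Integral y A → numericalDim y n Δ A = ((0 : ℕ) : EReal)) ∧
          ∃ m : ℕ, 1 ≤ m ∧ ∃ ω : (Fin n → Derivation ℂ K K) → K, IsSection y n m (m • Δ) ω ∧
            ω ≠ 0 ∧ ∀ P, IsPrimeDivisor y P → OrdEq P ω (-(m * Δ P)))) := by
  have hP' : ∀ g ∈ G, PullLe g y' n Δ' := by
    rcases hP with rfl | h
    · exact fun g _ => pullLe_terminal hy' hn' hT' g
    · exact h
  have hiso : ∀ g ∈ G, PseudoAut g y' := fun g hg =>
    pseudo_of_terminal hy' hn' hΔ'.1 hT' hnef' (hP' g hg) (hP' g⁻¹ (G.inv_mem hg))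
  obtain ⟨ρ, Φ, h1, h2, h3, h4⟩ := struct_main hy' hn' hn0 hN' G hnil hiso
  refine ⟨ρ, Φ, h1, h2, h3, fun hρ => ?_⟩
  have h5 := IM.numDimLt_img hy hy' hn hn' π hπ (Nat.sub_le _ _) (h4 Δ' hΔ'.2 hP' hρ)
  refine ⟨h5, ?_, fun h => ⟨n - ρ - 1, h, ?_⟩, fun h6 hN hnef => ?_,
    fun h6 hnef hq => ?_⟩
  · rintro ⟨m, hm, ω, E, hω, h0, hind⟩
    exact kappa_lt hy hn (Nat.sub_le _ _) h5 hm hω h0 hind
  · rwa [show n - ρ - 1 + 1 = n - ρ by omega]
  · rw [show n - ρ = 1 by omega] at h5
    exact nef_numTrivial hy hn hn0 hN hΔ.2 hnef h5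
  · rw [show n - ρ = 1 by omega] at h5
    have key : ∃ m : ℕ, 1 ≤ m ∧ ∃ ω : (Fin n → Derivation ℂ K K) → K, ω ≠ 0 ∧
        IsSection y n m (m • Δ) ω := by
      rcases hq with ⟨m, hm, ω, E, hω, h0, -⟩ | hq
      · exact ⟨m, hm, ω 0, fun h4 => h0 (by rw [h4]; rfl), hω 0⟩
      · obtain ⟨m, hm, ω, hω0, hω⟩ := NV.nonvanishing hy hn hn0 hΔ.2
          (NV.psef_of_nef hy hn hn0 hnef) h5 hq
        exact ⟨m, hm, ω, hω0, hω⟩
    obtain ⟨m, hm, ω, hω0, hω⟩ := key
    obtain ⟨h7, h8⟩ := abundance_zero hy hn hn0 hΔ h5 hm hω hω0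
    exact ⟨h7, h8, m, hm, ω, hω, hω0, fun P hP => nef_trivialP hy hn hn0 h5 hnef hm hω hω0 P hP⟩
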